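import Mathlib

/-!
# Distinct real roots of sparse polynomials and Wronskians
-/

set_option autoImplicit false

namespace Pool.Agent.W945.Sos

open Polynomial

/-- The number of distinct real roots (`0` for the zero polynomial). -/
noncomputable def nr (p : ℝ[X]) : ℕ := p.roots.toFinset.card

theorem sv_le : ∀ (n : ℕ) (p : ℝ[X]), p.support.card = n + 1 → signVariations p ≤ n := by
  intro n
  induction n with
  | zero =>
    intro p hp
    obtain ⟨k, x, _, rfl⟩ := card_support_eq_one.1 hp
    rw [C_mul_X_pow_eq_monomial, signVariations_monomial]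
  | succ n ih =>
    intro p hp
    have h1 := signVariations_le_eraseLead_succ (P := p)
    have h2 := ih p.eraseLead (by rw [card_support_eraseLead, hp]; rfl)
    omega

theorem pos_le (p : ℝ[X]) (hp : p ≠ 0) :
    (p.roots.toFinset.filter fun x => 0 < x).card + 1 ≤ p.support.card := by
  have h0 : 0 < p.support.card := by
    rw [Finset.card_pos, Finset.nonempty_iff_ne_empty, ne_eq, support_eq_empty]
    exact hp
  obtain ⟨n, hn⟩ : ∃ n, p.support.card = n + 1 := ⟨p.support.card - 1, by omega⟩
  have h1 := sv_le n p hn
  have h2 := roots_countP_pos_le_signVariations p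
  have h3 : (p.roots.toFinset.filter fun x => 0 < x).card ≤ p.roots.countP (0 < ·) := by
    rw [Multiset.countP_eq_card_filter]
    have : (p.roots.toFinset.filter fun x => 0 < x) = (p.roots.filter fun x => 0 < x).toFinset := by
      ext x
      simp
    rw [this]
    exact Multiset.toFinset_card_le _
  omega

theorem neg_support (p : ℝ[X]) : (p.comp (-X)).support = p.support := by
  ext i
  rw [mem_support_iff, mem_support_iff]
  have : (p.comp (-X)).coeff i = p.coeff i * (-1) ^ i := by
    have h := comp_C_mul_X_coeff (p := p) (r := (-1 : ℝ)) (n := i)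
    rw [← h]
    congr 2
    simp
  rw [this]
  have h1 : ((-1 : ℝ)) ^ i ≠ 0 := pow_ne_zero _ (by norm_num)
  exact ⟨fun h => left_ne_zero_of_mul h, fun h => mul_ne_zero h h1⟩

/-- Descartes: a nonzero polynomial with `t` monomials has at most `2 t - 1` distinct real roots. -/
theorem desc (p : ℝ[X]) (hp : p ≠ 0) : nr p + 1 ≤ 2 * p.support.card := by
  have h1 := pos_le p hp
  have hne : p.comp (-X) ≠ 0 := by
    intro h
    apply hp
    rw [← support_eq_empty, ← neg_support, h, support_zero]
  have h2 := pos_le (p.comp (-X)) hne
  rw [neg_support] at h2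
  have h3 : (p.roots.toFinset.filter fun x => x < 0).card ≤
      ((p.comp (-X)).roots.toFinset.filter fun x => 0 < x).card := by
    apply Finset.card_le_card_of_injOn (fun x => -x)
    · intro x hx
      simp only [Finset.coe_filter, Multiset.mem_toFinset, Set.mem_ofPred_eq, mem_roots hp,
        mem_roots hne, IsRoot.def, eval_comp, eval_neg, eval_X, neg_neg] at hx ⊢
      exact ⟨hx.1, by linarith [hx.2]⟩
    · intro x _ y _ h
      exact neg_injective h
  have h4 : p.roots.toFinset ⊆ ((p.roots.toFinset.filter fun x => 0 < x) ∪
      (p.roots.toFinset.filter fun x => x < 0)) ∪ {0} := by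
    intro x hx
    rcases lt_trichotomy x 0 with h | h | h
    · simp only [Finset.mem_union, Finset.mem_filter, Finset.mem_singleton]
      exact Or.inl (Or.inr ⟨hx, h⟩)
    · simp only [Finset.mem_union, Finset.mem_filter, Finset.mem_singleton]
      exact Or.inr h
    · simp only [Finset.mem_union, Finset.mem_filter, Finset.mem_singleton]
      exact Or.inl (Or.inl ⟨hx, h⟩)
  have h5 := Finset.card_le_card h4
  have h6 := Finset.card_union_le ((p.roots.toFinset.filter fun x => 0 < x) ∪
      (p.roots.toFinset.filter fun x => x < 0)) {0}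
  have h7 := Finset.card_union_le (p.roots.toFinset.filter fun x => 0 < x)
      (p.roots.toFinset.filter fun x => x < 0)
  have h8 : ({0} : Finset ℝ).card = 1 := rfl
  unfold nr
  omega

theorem nr_mul (p q : ℝ[X]) (h : p * q ≠ 0) : nr (p * q) ≤ nr p + nr q := by
  unfold nr
  rw [roots_mul h, Multiset.toFinset_add]
  exact Finset.card_union_le _ _

theorem nr_C_mul (c : ℝ) (hc : c ≠ 0) (p : ℝ[X]) : nr (C c * p) = nr p := by
  unfold nr
  rw [roots_C_mul _ hc]

/-- Rolle for the quotient `P / D`. -/
theorem wron (P D : ℝ[X]) (hP : P ≠ 0) (hD : D ≠ 0) :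
    nr P ≤ 2 * nr D + nr (derivative P * D - P * derivative D) + 1 := by
  by_cases hV : derivative P * D - P * derivative D = 0
  · have hsub : P.roots.toFinset ⊆ D.roots.toFinset := by
      intro x hx
      rw [Multiset.mem_toFinset, mem_roots hP] at hx
      rw [Multiset.mem_toFinset, mem_roots hD]
      by_contra hDx
      have h1 := derivative_rootMultiplicity_of_root hx
      have h2 : 0 < P.rootMultiplicity x := (rootMultiplicity_pos hP).2 hx
      have hP' : derivative P ≠ 0 := by
        intro h
        have h3 := natDegree_eq_zero_of_derivative_eq_zero h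
        rw [natDegree_eq_zero] at h3
        obtain ⟨c, rfl⟩ := h3
        rw [IsRoot.def, eval_C] at hx
        rw [hx] at hP
        exact hP C_0
      have hne : derivative P * D ≠ 0 := mul_ne_zero hP' hD
      have heq : derivative P * D = P * derivative D := sub_eq_zero.1 hV
      have h4 : (derivative P * D).rootMultiplicity x = P.rootMultiplicity x - 1 := by
        rw [rootMultiplicity_mul hne, h1, rootMultiplicity_eq_zero hDx, add_zero]
      have h5 : P.rootMultiplicity x ≤ (derivative P * D).rootMultiplicity x := by
        rw [le_rootMultiplicity_iff hne, heq]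
        exact dvd_mul_of_dvd_left (pow_rootMultiplicity_dvd P x) _
      omega
    have := Finset.card_le_card hsub
    unfold nr
    omega
  · set V := derivative P * D - P * derivative D with hVdef
    have h1 : (P.roots.toFinset.filter fun x => D.eval x ≠ 0).card ≤
        (D * V).roots.toFinset.card + 1 := by
      apply Finset.card_le_of_interleaved
      intro x hx y hy hxy _
      rw [Finset.mem_filter, Multiset.mem_toFinset, mem_roots hP, IsRoot.def] at hx hy
      have hDV : D * V ≠ 0 := mul_ne_zero hD hV
      by_cases hz : ∃ z, x < z ∧ z < y ∧ D.eval z = 0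
      · obtain ⟨z, hz1, hz2, hz3⟩ := hz
        refine ⟨z, ?_, hz1, hz2⟩
        rw [Multiset.mem_toFinset, mem_roots hDV, IsRoot.def, eval_mul, hz3, zero_mul]
      · have hDne : ∀ t ∈ Set.Icc x y, D.eval t ≠ 0 := by
          intro t ht h0
          rcases eq_or_lt_of_le ht.1 with h | h
          · rw [← h] at h0
            exact hx.2 h0
          · rcases eq_or_lt_of_le ht.2 with h' | h'
            · rw [h'] at h0
              exact hy.2 h0
            · exact hz ⟨t, h, h', h0⟩
        have hder : ∀ t ∈ Set.Icc x y, HasDerivAt (fun t => P.eval t / D.eval t)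
            (((derivative P).eval t * D.eval t - P.eval t * (derivative D).eval t) /
              (D.eval t) ^ 2) t := by
          intro t ht
          exact (P.hasDerivAt t).div (D.hasDerivAt t) (hDne t ht)
        obtain ⟨z, hz1, hz2⟩ := exists_hasDerivAt_eq_zero hxy
          (fun t ht => (hder t ht).continuousAt.continuousWithinAt)
          (by show P.eval x / D.eval x = P.eval y / D.eval y
              rw [hx.1, hy.1, zero_div, zero_div])
          (fun t ht => hder t ⟨ht.1.le, ht.2.le⟩)
        refine ⟨z, ?_, hz1.1, hz1.2⟩
        have h3 := hDne z ⟨hz1.1.le, hz1.2.le⟩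
        have h4 : (derivative P).eval z * D.eval z - P.eval z * (derivative D).eval z = 0 := by
          rcases div_eq_zero_iff.1 hz2 with h | h
          · exact h
          · exact absurd h (pow_ne_zero 2 h3)
        rw [Multiset.mem_toFinset, mem_roots hDV, IsRoot.def, eval_mul]
        have : V.eval z = 0 := by
          rw [hVdef, eval_sub, eval_mul, eval_mul]
          exact h4
        rw [this, mul_zero]
    have h2 : P.roots.toFinset ⊆ (P.roots.toFinset.filter fun x => D.eval x ≠ 0) ∪
        D.roots.toFinset := by
      intro x hx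
      by_cases h : D.eval x = 0
      · apply Finset.mem_union_right
        rw [Multiset.mem_toFinset, mem_roots hD]
        exact h
      · exact Finset.mem_union_left _ (Finset.mem_filter.2 ⟨hx, h⟩)
    have h3 := Finset.card_le_card h2
    have h4 := Finset.card_union_le (P.roots.toFinset.filter fun x => D.eval x ≠ 0)
      D.roots.toFinset
    have h5 := nr_mul D V (mul_ne_zero hD hV)
    unfold nr at *
    omega

theorem supp (G D : ℝ[X]) :
    (2 * (derivative G * D) - G * derivative D).support.card ≤
      G.support.card * D.support.card := by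
  classical
  rw [← Finset.card_product]
  refine le_trans (Finset.card_le_card ?_)
    (Finset.card_image_le (s := G.support ×ˢ D.support) (f := fun q : ℕ × ℕ => q.1 + q.2 - 1))
  intro n hn
  rw [Finset.mem_image]
  rw [mem_support_iff, coeff_sub] at hn
  have h2 : (2 * (derivative G * D)).coeff n = 2 * (derivative G * D).coeff n := by
    have : (2 : ℝ[X]) = C 2 := (map_ofNat C 2).symm
    rw [this, coeff_C_mul]
  rw [h2] at hn
  by_cases h1 : (derivative G * D).coeff n = 0
  · rw [h1, mul_zero, zero_sub, neg_ne_zero, coeff_mul] at hn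
    obtain ⟨q, hq, hq2⟩ := Finset.exists_ne_zero_of_sum_ne_zero hn
    rw [Finset.HasAntidiagonal.mem_antidiagonal] at hq
    rw [coeff_derivative] at hq2
    refine ⟨(q.1, q.2 + 1), ?_, ?_⟩
    · rw [Finset.mem_product, mem_support_iff, mem_support_iff]
      exact ⟨left_ne_zero_of_mul hq2, left_ne_zero_of_mul (right_ne_zero_of_mul hq2)⟩
    · show q.1 + (q.2 + 1) - 1 = n
      omega
  · rw [coeff_mul] at h1
    obtain ⟨q, hq, hq2⟩ := Finset.exists_ne_zero_of_sum_ne_zero h1
    rw [Finset.HasAntidiagonal.mem_antidiagonal] at hq
    rw [coeff_derivative] at hq2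
    refine ⟨(q.1 + 1, q.2), ?_, ?_⟩
    · rw [Finset.mem_product, mem_support_iff, mem_support_iff]
      exact ⟨left_ne_zero_of_mul (left_ne_zero_of_mul hq2), right_ne_zero_of_mul hq2⟩
    · show q.1 + 1 + q.2 - 1 = n
      omega

/-- `G ^ 2 - D`: linear in the number of monomials of `G`. -/
theorem square_sub (G D : ℝ[X]) (hD : D ≠ 0) (h : G ^ 2 - D ≠ 0) :
    nr (G ^ 2 - D) ≤ 2 * (G.support.card * D.support.card) + 4 * D.support.card +
      2 * G.support.card := by
  have h1 := wron (G ^ 2 - D) D h hD
  have h2 : derivative (G ^ 2 - D) * D - (G ^ 2 - D) * derivative D =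
      G * (2 * (derivative G * D) - G * derivative D) := by
    rw [derivative_sub, derivative_pow]
    simp only [Nat.cast_ofNat, Nat.add_one_sub_one, pow_one, map_ofNat]
    ring
  rw [h2] at h1
  have h3 := desc D hD
  by_cases h4 : G * (2 * (derivative G * D) - G * derivative D) = 0
  · rw [h4] at h1
    have : nr 0 = 0 := by simp [nr]
    omega
  · have h5 := nr_mul _ _ h4
    have h6 := desc G (left_ne_zero_of_mul h4)
    have h7 := desc _ (right_ne_zero_of_mul h4)
    have h8 := supp G D
    omega

end Pool.Agent.W945.Sos
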