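import Pool.Agent.W945.Sos.Two

/-!
# Sums of squares of short combinations of `g` and `Q`
-/

set_option autoImplicit false

namespace Pool.Agent.W945.Sos

open Polynomial

theorem mo_sum {ι : Type} (s : Finset ι) (f : ι → ℝ[X]) :
    mo (∑ i ∈ s, f i) ≤ ∑ i ∈ s, mo (f i) := by
  classical
  induction s using Finset.induction_on with
  | empty => simp [mo]
  | insert i s hi ih =>
    rw [Finset.sum_insert hi, Finset.sum_insert hi]
    exact (mo_add _ _).trans (Nat.add_le_add_left ih _)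

theorem sum_mul_le {ι : Type} (s : Finset ι) (a b : ι → ℕ) (k : ℕ) (ha : ∑ i ∈ s, a i ≤ k)
    (hb : ∑ i ∈ s, b i ≤ k) : ∑ i ∈ s, a i * b i ≤ k ^ 2 := by
  calc ∑ i ∈ s, a i * b i ≤ ∑ i ∈ s, a i * k := by
        refine Finset.sum_le_sum fun i hi => Nat.mul_le_mul_left _ ?_
        exact (Finset.single_le_sum (f := b) (fun j _ => Nat.zero_le _) hi).trans hb
    _ = (∑ i ∈ s, a i) * k := by rw [Finset.sum_mul]
    _ ≤ k * k := Nat.mul_le_mul_right _ ha
    _ = k ^ 2 := (sq k).symm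

theorem sos (P L Q : ℝ[X]) (l : ℕ) (hP : P ≠ 0) (hQ : Q ≠ 0) (h : P * derivative Q = L * Q)
    (hPl : mo P ≤ l) (hLl : mo L ≤ l) (ι : Type) (s : Finset ι) (c : ι → ℝ) (p m r : ι → ℝ[X])
    (g : ℝ[X]) (k : ℕ) (hp : ∀ i ∈ s, p i = m i * g + r i * Q)
    (hk : ∑ i ∈ s, (mo (m i) + mo (r i)) ≤ k) (hf : ∑ i ∈ s, C (c i) * p i ^ 2 ≠ 0) :
    nr (∑ i ∈ s, C (c i) * p i ^ 2) ≤ 164 * (l ^ 3 * k ^ 12 * (mo g + 1)) := by
  classical
  have e : ∑ i ∈ s, C (c i) * p i ^ 2 = (∑ i ∈ s, C (c i) * (m i * m i)) * g ^ 2 +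
      (∑ i ∈ s, C (2 * c i) * (m i * r i)) * g * Q + (∑ i ∈ s, C (c i) * (r i * r i)) * Q ^ 2 := by
    simp only [Finset.sum_mul]
    rw [← Finset.sum_add_distrib, ← Finset.sum_add_distrib]
    refine Finset.sum_congr rfl fun i hi => ?_
    rw [hp i hi, C_mul, (map_ofNat C 2 : (C 2 : ℝ[X]) = 2)]
    ring
  rw [Finset.sum_add_distrib] at hk
  have hm : ∑ i ∈ s, mo (m i) ≤ k := by omega
  have hr : ∑ i ∈ s, mo (r i) ≤ k := by omega
  have hA : mo (∑ i ∈ s, C (c i) * (m i * m i)) ≤ k ^ 2 :=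
    ((mo_sum _ _).trans (Finset.sum_le_sum fun i _ => (mo_C_mul _ _).trans (mo_mul _ _))).trans
      (sum_mul_le s _ _ k hm hm)
  have hB : mo (∑ i ∈ s, C (2 * c i) * (m i * r i)) ≤ k ^ 2 :=
    ((mo_sum _ _).trans (Finset.sum_le_sum fun i _ => (mo_C_mul _ _).trans (mo_mul _ _))).trans
      (sum_mul_le s _ _ k hm hr)
  have hC : mo (∑ i ∈ s, C (c i) * (r i * r i)) ≤ k ^ 2 :=
    ((mo_sum _ _).trans (Finset.sum_le_sum fun i _ => (mo_C_mul _ _).trans (mo_mul _ _))).trans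
      (sum_mul_le s _ _ k hr hr)
  rw [e] at hf ⊢
  have := quad P L Q _ _ _ g hP hQ h (k ^ 2) l (mo g) hPl hLl hA hB hC le_rfl hf
  rw [← pow_mul] at this
  exact this

theorem sos_total (P L Q : ℝ[X]) (l : ℕ) (hP : P ≠ 0) (hQ : Q ≠ 0)
    (h : P * derivative Q = L * Q)
    (hPl : mo P ≤ l) (hLl : mo L ≤ l) (ι : Type) (s : Finset ι) (c : ι → ℝ) (p m r : ι → ℝ[X])
    (j : ι) (hj : j ∈ s) (k : ℕ) (hp : ∀ i ∈ s, p i = m i * p j + r i * Q)
    (hk : ∑ i ∈ s, (mo (m i) + mo (r i)) ≤ k) (hf : ∑ i ∈ s, C (c i) * p i ^ 2 ≠ 0) :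
    nr (∑ i ∈ s, C (c i) * p i ^ 2) ≤ 328 * (l ^ 3 * k ^ 12 * ∑ i ∈ s, mo (p i)) := by
  classical
  have h1 := sos P L Q l hP hQ h hPl hLl ι s c p m r (p j) k hp hk hf
  have h2 : mo (p j) ≤ ∑ i ∈ s, mo (p i) :=
    Finset.single_le_sum (f := fun i => mo (p i)) (fun i _ => Nat.zero_le _) hj
  have h3 : 1 ≤ ∑ i ∈ s, mo (p i) := by
    by_contra hlt
    apply hf
    have h0 : ∑ i ∈ s, mo (p i) = 0 := by omega
    rw [Finset.sum_eq_zero_iff] at h0
    refine Finset.sum_eq_zero fun i hi => ?_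
    have : p i = 0 := by
      rw [← support_eq_empty, ← Finset.card_eq_zero]
      exact h0 i hi
    rw [this]
    simp
  calc nr (∑ i ∈ s, C (c i) * p i ^ 2) ≤ 164 * (l ^ 3 * k ^ 12 * (mo (p j) + 1)) := h1
    _ ≤ 164 * (l ^ 3 * k ^ 12 * (2 * ∑ i ∈ s, mo (p i))) := by
        apply Nat.mul_le_mul_left
        apply Nat.mul_le_mul_left
        omega
    _ = 328 * (l ^ 3 * k ^ 12 * ∑ i ∈ s, mo (p i)) := by ring

theorem mo_prod {ι : Type} (s : Finset ι) (q : ι → ℝ[X]) :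
    mo (∏ i ∈ s, q i) ≤ ∏ i ∈ s, mo (q i) := by
  classical
  induction s using Finset.induction_on with
  | empty =>
    simp only [Finset.prod_empty]
    unfold mo
    rw [← C_1]
    exact (Finset.card_le_card (support_C_subset 1)).trans (by simp)
  | insert i s hi ih =>
    rw [Finset.prod_insert hi, Finset.prod_insert hi]
    exact mo_mul_le le_rfl ih

/-- products of powers of short polynomials -/
theorem prods {ι : Type} (s : Finset ι) (q : ι → ℝ[X]) (N : ι → ℕ) :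
    ∃ L : ℝ[X], (∏ i ∈ s, q i) * derivative (∏ i ∈ s, q i ^ N i) = L * ∏ i ∈ s, q i ^ N i ∧
      mo L ≤ s.card * ∏ i ∈ s, mo (q i) := by
  classical
  induction s using Finset.induction_on with
  | empty => exact ⟨0, by simp, by simp [mo]⟩
  | insert i s hi ih =>
    obtain ⟨L, h1, h2⟩ := ih
    refine ⟨C (N i : ℝ) * (derivative (q i) * ∏ i ∈ s, q i) + q i * L, ?_, ?_⟩
    · rw [Finset.prod_insert hi, Finset.prod_insert hi, derivative_mul, derivative_pow]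
      rcases Nat.eq_zero_or_pos (N i) with h0 | h0
      · rw [h0]
        simp only [Nat.cast_zero, C_0, zero_mul, zero_add, pow_zero, one_mul]
        linear_combination (q i) * h1
      · obtain ⟨a, ha⟩ : ∃ a, N i = a + 1 := ⟨N i - 1, by omega⟩
        rw [ha, Nat.add_sub_cancel]
        have : (C ((a + 1 : ℕ) : ℝ) : ℝ[X]) = ((a + 1 : ℕ) : ℝ[X]) := by simp
        rw [this]
        linear_combination (q i * q i ^ (a + 1)) * h1
    · rw [Finset.prod_insert hi, Finset.card_insert_of_notMem hi]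
      have h3 := mo_prod s q
      have h4 : mo (C (N i : ℝ) * (derivative (q i) * ∏ i ∈ s, q i)) ≤
          mo (q i) * ∏ i ∈ s, mo (q i) :=
        (mo_C_mul _ _).trans (mo_mul_le (mo_der _) h3)
      have h5 : mo (q i * L) ≤ mo (q i) * (s.card * ∏ i ∈ s, mo (q i)) := mo_mul_le le_rfl h2
      calc _ ≤ mo (q i) * ∏ i ∈ s, mo (q i) + mo (q i) * (s.card * ∏ i ∈ s, mo (q i)) :=
            (mo_add _ _).trans (Nat.add_le_add h4 h5)
        _ = (s.card + 1) * (mo (q i) * ∏ i ∈ s, mo (q i)) := by ring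

end Pool.Agent.W945.Sos
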