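import Pool.Agent.W945.Sos.Basic

/-!
# Quadratic polynomials in one long polynomial `g`, with a second long polynomial `Q` such that
`P Q' = L Q` for short `P`, `L`
-/

set_option autoImplicit false

namespace Pool.Agent.W945.Sos

open Polynomial

/-- The number of monomials. -/
noncomputable def mo (p : ℝ[X]) : ℕ := p.support.card

theorem mo_mul (p q : ℝ[X]) : mo (p * q) ≤ mo p * mo q := card_support_mul_le

theorem mo_mul_le {p q : ℝ[X]} {a b : ℕ} (hp : mo p ≤ a) (hq : mo q ≤ b) : mo (p * q) ≤ a * b :=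
  (mo_mul p q).trans (Nat.mul_le_mul hp hq)

theorem mo_add (p q : ℝ[X]) : mo (p + q) ≤ mo p + mo q :=
  (Finset.card_le_card support_add).trans (Finset.card_union_le _ _)

theorem mo_neg (p : ℝ[X]) : mo (-p) = mo p := by
  unfold mo
  rw [support_neg]

theorem mo_sub (p q : ℝ[X]) : mo (p - q) ≤ mo p + mo q := by
  rw [sub_eq_add_neg, ← mo_neg q]
  exact mo_add p (-q)

theorem mo_C_mul (c : ℝ) (p : ℝ[X]) : mo (C c * p) ≤ mo p := by
  unfold mo
  apply Finset.card_le_card
  intro i hi
  rw [mem_support_iff, coeff_C_mul] at hi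
  rw [mem_support_iff]
  exact right_ne_zero_of_mul hi

theorem mo_der (p : ℝ[X]) : mo (derivative p) ≤ mo p := by
  unfold mo
  apply Finset.card_le_card_of_injOn (fun i => i + 1)
  · intro i hi
    rw [Finset.mem_coe, mem_support_iff, coeff_derivative] at hi
    rw [Finset.mem_coe, mem_support_iff]
    exact left_ne_zero_of_mul hi
  · intro i _ j _ h
    exact Nat.succ_injective h

theorem desc' (p : ℝ[X]) : nr p ≤ 2 * mo p := by
  by_cases h : p = 0
  · rw [h]
    simp [nr]
  · have := desc p h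
    unfold mo
    omega

theorem nr_le_mul (p q : ℝ[X]) (h : p * q ≠ 0) : nr q ≤ nr (p * q) := by
  unfold nr
  rw [roots_mul h, Multiset.toFinset_add]
  exact Finset.card_le_card Finset.subset_union_right

/-- the roots of `Q` are among those of `P` -/
theorem rootsQ (P L Q : ℝ[X]) (hP : P ≠ 0) (hQ : Q ≠ 0) (h : P * derivative Q = L * Q) :
    nr Q ≤ nr P := by
  apply Finset.card_le_card
  intro x hx
  rw [Multiset.mem_toFinset, mem_roots hQ] at hx
  rw [Multiset.mem_toFinset, mem_roots hP]
  by_contra hPx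
  have h1 := derivative_rootMultiplicity_of_root hx
  have h2 : 0 < Q.rootMultiplicity x := (rootMultiplicity_pos hQ).2 hx
  have hQ' : derivative Q ≠ 0 := by
    intro h
    have h3 := natDegree_eq_zero_of_derivative_eq_zero h
    rw [natDegree_eq_zero] at h3
    obtain ⟨c, rfl⟩ := h3
    rw [IsRoot.def, eval_C] at hx
    rw [hx] at hQ
    exact hQ C_0
  have hne : P * derivative Q ≠ 0 := mul_ne_zero hP hQ'
  have h4 : (P * derivative Q).rootMultiplicity x = Q.rootMultiplicity x - 1 := by
    rw [rootMultiplicity_mul hne, h1, rootMultiplicity_eq_zero hPx, zero_add]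
  have h5 : Q.rootMultiplicity x ≤ (P * derivative Q).rootMultiplicity x := by
    rw [le_rootMultiplicity_iff hne, h]
    exact dvd_mul_of_dvd_right (pow_rootMultiplicity_dvd Q x) _
  omega

/-- sums `U + V Q` with sparse `U` and short `V` -/
theorem lin (P L Q U V : ℝ[X]) (hP : P ≠ 0) (hQ : Q ≠ 0) (h : P * derivative Q = L * Q)
    (k x v : ℕ) (hPk : mo P ≤ k) (hLk : mo L ≤ k) (hU : mo U ≤ x) (hV : mo V ≤ v) :
    nr (U + V * Q) ≤ 6 * (k * v * x) + 2 * x + 4 * v + 6 * k + 1 := by
  by_cases h0 : U + V * Q = 0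
  · rw [h0]
    simp [nr]
  by_cases hV0 : V = 0
  · rw [hV0, zero_mul, add_zero]
    have := desc' U
    omega
  have hVQ : V * Q ≠ 0 := mul_ne_zero hV0 hQ
  have h1 := wron (U + V * Q) (V * Q) h0 hVQ
  have h2 := nr_mul V Q hVQ
  have h3 := rootsQ P L Q hP hQ h
  have h4 := desc' P
  have h5 := desc' V
  set T := P * V * derivative U - (P * derivative V + L * V) * U with hT
  have key : P * (derivative (U + V * Q) * (V * Q) - (U + V * Q) * derivative (V * Q)) = Q * T := by
    rw [hT, derivative_add, derivative_mul]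
    linear_combination (-(U * V)) * h
  have hT1 : mo T ≤ k * v * x + (k * v + k * v) * x := by
    refine (mo_sub _ _).trans (Nat.add_le_add ?_ ?_)
    · exact mo_mul_le (mo_mul_le hPk hV) ((mo_der U).trans hU)
    · refine mo_mul_le ((mo_add _ _).trans (Nat.add_le_add ?_ ?_)) hU
      · exact mo_mul_le hPk ((mo_der V).trans hV)
      · exact mo_mul_le hLk hV
  have hT2 := desc' T
  have h6 : nr (derivative (U + V * Q) * (V * Q) - (U + V * Q) * derivative (V * Q)) ≤
      nr Q + nr T := by
    by_cases hz : derivative (U + V * Q) * (V * Q) - (U + V * Q) * derivative (V * Q) = 0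
    · rw [hz]
      simp [nr]
    · have hne := mul_ne_zero hP hz
      refine (nr_le_mul P _ hne).trans ?_
      rw [key] at hne ⊢
      exact nr_mul Q T hne
  nlinarith [h1, h2, h3, h4, h5, hT1, hT2, h6, hPk, hV]

/-- a number which bounds small products -/
theorem small {l k a b : ℕ} (hl : 1 ≤ l) (hk : 1 ≤ k) (ha : a ≤ 3) (hb : b ≤ 6) :
    l ^ a * k ^ b ≤ l ^ 3 * k ^ 6 :=
  Nat.mul_le_mul (Nat.pow_le_pow_right hl ha) (Nat.pow_le_pow_right hk hb)

/-- **Quadratic polynomials** `A g ^ 2 + B g Q + C Q ^ 2` with short `A`, `B`, `C`. -/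
theorem quad (P L Q A B C' g : ℝ[X]) (hP : P ≠ 0) (hQ : Q ≠ 0) (h : P * derivative Q = L * Q)
    (k l t : ℕ) (hPk : mo P ≤ l) (hLk : mo L ≤ l) (hA : mo A ≤ k) (hB : mo B ≤ k) (hC : mo C' ≤ k)
    (ht : mo g ≤ t) (hf : A * g ^ 2 + B * g * Q + C' * Q ^ 2 ≠ 0) :
    nr (A * g ^ 2 + B * g * Q + C' * Q ^ 2) ≤ 164 * (l ^ 3 * k ^ 6 * (t + 1)) := by
  have hl : 1 ≤ l := by
    refine le_trans ?_ hPk
    unfold mo
    rw [Nat.one_le_iff_ne_zero, ne_eq, Finset.card_eq_zero, support_eq_empty]
    exact hP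
  have hk : 1 ≤ k := by
    by_contra hk
    have hk0 : k = 0 := by omega
    subst hk0
    apply hf
    have z : ∀ p : ℝ[X], mo p ≤ 0 → p = 0 := fun p hp => by
      rw [← support_eq_empty, ← Finset.card_eq_zero]
      unfold mo at hp
      omega
    rw [z A hA, z B hB, z C' hC]
    simp
  have s1 := small hl hk (a := 1) (b := 2) (by norm_num) (by norm_num)
  have s2 := small hl hk (a := 0) (b := 1) (by norm_num) (by norm_num)
  have s3 := small hl hk (a := 1) (b := 0) (by norm_num) (by norm_num)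
  have s4 := small hl hk (a := 0) (b := 0) (by norm_num) (by norm_num)
  have s5 := small hl hk (a := 1) (b := 3) (by norm_num) (by norm_num)
  have s6 := small hl hk (a := 0) (b := 2) (by norm_num) (by norm_num)
  set M := l ^ 3 * k ^ 6 with hM
  have e1 := Nat.mul_le_mul_right t s1
  have e2 := Nat.mul_le_mul_right t s2
  have e5 := Nat.mul_le_mul_right t s5
  have hQ2 := rootsQ P L Q hP hQ h
  have hPd := desc' P
  -- the general linear bound
  have hlin : ∀ (c : ℝ), nr (C c * (A * g) + B * Q) ≤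
      6 * (l * k * (k * t)) + 2 * (k * t) + 4 * k + 6 * l + 1 := fun c =>
    lin P L Q (C c * (A * g)) B hP hQ h l (k * t) k hPk hLk ((mo_C_mul _ _).trans (mo_mul_le hA ht)) hB
  by_cases hA0 : A = 0
  · have e : A * g ^ 2 + B * g * Q + C' * Q ^ 2 = Q * (B * g + C' * Q) := by
      rw [hA0]
      ring
    rw [e] at hf ⊢
    have h1 := nr_mul _ _ hf
    have h2 := lin P L Q (B * g) C' hP hQ h l (k * t) k hPk hLk (mo_mul_le hB ht) hC
    have h3 : l * k * (k * t) = l ^ 1 * k ^ 2 * t := by ring
    have h4 : k * t = l ^ 0 * k ^ 1 * t := by ring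
    rw [h3, h4] at h2
    have h5 : M * (t + 1) = M * t + M := by ring
    rw [h5]
    simp only [pow_zero, pow_one, one_mul, mul_one] at s2 s3 s4 e1 e2 h2
    omega
  · set D := B ^ 2 - C 4 * (A * C') with hD
    set u := C 2 * (A * g) + B * Q with hu
    have c4 : (C 4 : ℝ[X]) = 4 := map_ofNat C 4
    have c2 : (C 2 : ℝ[X]) = 2 := map_ofNat C 2
    have hfu : C 4 * A * (A * g ^ 2 + B * g * Q + C' * Q ^ 2) = u ^ 2 - D * Q ^ 2 := by
      rw [hu, hD, c4, c2]
      ring
    have h4A : C 4 * A ≠ 0 := mul_ne_zero (C_ne_zero.2 (by norm_num)) hA0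
    have hne : u ^ 2 - D * Q ^ 2 ≠ 0 := by
      rw [← hfu]
      exact mul_ne_zero h4A hf
    have hle : nr (A * g ^ 2 + B * g * Q + C' * Q ^ 2) ≤ nr (u ^ 2 - D * Q ^ 2) := by
      rw [← hfu] at hne ⊢
      exact nr_le_mul _ _ hne
    have hub := hlin 2
    rw [← hu] at hub
    have h3 : l * k * (k * t) = l ^ 1 * k ^ 2 * t := by ring
    have h4 : k * t = l ^ 0 * k ^ 1 * t := by ring
    rw [h3, h4] at hub
    have h5 : M * (t + 1) = M * t + M := by ring
    rw [h5]
    by_cases hD0 : D = 0
    · rw [hD0, zero_mul, sub_zero] at hle hne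
      have hu0 : u * u ≠ 0 := by
        rw [← sq]
        exact hne
      have h6 : nr (u ^ 2) ≤ nr u := by
        unfold nr
        rw [roots_pow]
        apply Finset.card_le_card
        intro x hx
        rw [Multiset.mem_toFinset] at hx ⊢
        exact Multiset.mem_of_mem_nsmul hx
      simp only [pow_zero, pow_one, one_mul, mul_one] at s2 s3 s4 e1 e2 hub
      omega
    · have hDQ : D * Q ^ 2 ≠ 0 := mul_ne_zero hD0 (pow_ne_zero 2 hQ)
      have hw := wron (u ^ 2 - D * Q ^ 2) (D * Q ^ 2) hne hDQ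
      have hDk : mo D ≤ 2 * k ^ 2 := by
        refine (mo_sub _ _).trans ?_
        have a1 : mo (B ^ 2) ≤ k * k := by
          rw [sq]
          exact mo_mul_le hB hB
        have a2 : mo (C 4 * (A * C')) ≤ k * k := (mo_C_mul _ _).trans (mo_mul_le hA hC)
        calc mo (B ^ 2) + mo (C 4 * (A * C')) ≤ k * k + k * k := Nat.add_le_add a1 a2
          _ = 2 * k ^ 2 := by ring
      have hDd := desc' D
      have h7 : nr (D * Q ^ 2) ≤ nr D + nr Q := by
        refine (nr_mul _ _ hDQ).trans (Nat.add_le_add_left ?_ _)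
        unfold nr
        rw [roots_pow]
        apply Finset.card_le_card
        intro x hx
        rw [Multiset.mem_toFinset] at hx ⊢
        exact Multiset.mem_of_mem_nsmul hx
      set U₂ := C 2 * (D * P) * derivative (C 2 * (A * g)) -
        (P * derivative D + C 2 * (L * D)) * (C 2 * (A * g)) with hU₂
      set V₂ := P * (C 2 * (D * derivative B) - derivative D * B) with hV₂
      have key : P * (derivative (u ^ 2 - D * Q ^ 2) * (D * Q ^ 2) -
          (u ^ 2 - D * Q ^ 2) * derivative (D * Q ^ 2)) = u * (Q * (Q * (U₂ + V₂ * Q))) := by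
        rw [hU₂, hV₂, c2]
        have d1 : derivative (u ^ 2 - D * Q ^ 2) = 2 * (u * derivative u) -
            derivative (D * Q ^ 2) := by
          rw [derivative_sub, derivative_pow]
          simp only [Nat.cast_ofNat, Nat.add_one_sub_one, pow_one, map_ofNat]
          ring
        have d2 : derivative (D * Q ^ 2) = derivative D * Q ^ 2 + 2 * (D * Q * derivative Q) := by
          rw [derivative_mul, derivative_pow]
          simp only [Nat.cast_ofNat, Nat.add_one_sub_one, pow_one, map_ofNat]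
          ring
        have d3 : derivative u = derivative (2 * (A * g)) + (derivative B * Q + B * derivative Q) := by
          rw [hu, c2, derivative_add, derivative_mul (f := B)]
        rw [d1, d2, d3]
        have hu' : u = 2 * (A * g) + B * Q := by rw [hu, c2]
        rw [hu']
        set G := (2 * (A * g) : ℝ[X]) with hG
        linear_combination (2 * D * Q ^ 2 * (G + B * Q) * B - 2 * D * Q * (G + B * Q) ^ 2) * h
      have hU₂k : mo U₂ ≤ 6 * k ^ 3 * l * t := by
        have a1 : mo (C 2 * (D * P) * derivative (C 2 * (A * g))) ≤ (2 * k ^ 2 * l) * (k * t) :=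
          mo_mul_le ((mo_C_mul _ _).trans (mo_mul_le hDk hPk))
            ((mo_der _).trans ((mo_C_mul _ _).trans (mo_mul_le hA ht)))
        have a2 : mo ((P * derivative D + C 2 * (L * D)) * (C 2 * (A * g))) ≤
            (l * (2 * k ^ 2) + l * (2 * k ^ 2)) * (k * t) :=
          mo_mul_le ((mo_add _ _).trans (Nat.add_le_add (mo_mul_le hPk ((mo_der _).trans hDk))
            ((mo_C_mul _ _).trans (mo_mul_le hLk hDk))))
            ((mo_C_mul _ _).trans (mo_mul_le hA ht))
        calc mo U₂ ≤ (2 * k ^ 2 * l) * (k * t) + (l * (2 * k ^ 2) + l * (2 * k ^ 2)) * (k * t) :=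
              (mo_sub _ _).trans (Nat.add_le_add a1 a2)
          _ = 6 * k ^ 3 * l * t := by ring
      have hV₂k : mo V₂ ≤ 4 * k ^ 3 * l := by
        have a1 : mo (C 2 * (D * derivative B) - derivative D * B) ≤ 2 * k ^ 2 * k + 2 * k ^ 2 * k :=
          (mo_sub _ _).trans (Nat.add_le_add
            ((mo_C_mul _ _).trans (mo_mul_le hDk ((mo_der _).trans hB)))
            (mo_mul_le ((mo_der _).trans hDk) hB))
        calc mo V₂ ≤ l * (2 * k ^ 2 * k + 2 * k ^ 2 * k) := mo_mul_le hPk a1
          _ = 4 * k ^ 3 * l := by ring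
      have h8 := lin P L Q U₂ V₂ hP hQ h l (6 * k ^ 3 * l * t) (4 * k ^ 3 * l) hPk hLk hU₂k hV₂k
      have h9 : nr (derivative (u ^ 2 - D * Q ^ 2) * (D * Q ^ 2) -
          (u ^ 2 - D * Q ^ 2) * derivative (D * Q ^ 2)) ≤
          nr u + (nr Q + (nr Q + nr (U₂ + V₂ * Q))) := by
        by_cases hz : derivative (u ^ 2 - D * Q ^ 2) * (D * Q ^ 2) -
          (u ^ 2 - D * Q ^ 2) * derivative (D * Q ^ 2) = 0
        · rw [hz]
          simp [nr]
        · have hne2 := mul_ne_zero hP hz
          refine (nr_le_mul P _ hne2).trans ?_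
          rw [key] at hne2 ⊢
          have b1 := nr_mul _ _ hne2
          have b2 := nr_mul _ _ (right_ne_zero_of_mul hne2)
          have b3 := nr_mul _ _ (right_ne_zero_of_mul (right_ne_zero_of_mul hne2))
          omega
      have r1 : l * (4 * k ^ 3 * l) * (6 * k ^ 3 * l * t) = 24 * (M * t) := by
        rw [hM]
        ring
      have r2 : 6 * k ^ 3 * l * t = 6 * (l ^ 1 * k ^ 3 * t) := by ring
      have r3 : 4 * k ^ 3 * l = 4 * (l ^ 1 * k ^ 3) := by ring
      rw [r1, r2, r3] at h8
      simp only [pow_zero, pow_one, one_mul, mul_one] at s1 s2 s3 s4 s5 s6 e1 e2 e5 hub h8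
      omega

end Pool.Agent.W945.Sos
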